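import Mathlib
import Pool.Agent.L7h88.VG.Dim

set_option autoImplicit false

/-!
# The equivalence of Q1 at points with algebraically independent coordinates, for all `m` and `d` at once

Let `r ≥ 10` and let `Y` be any set of `r` points `(Y i 0 : Y i 1 : 1)` of the complex projective plane
the `2 r` affine coordinates of which are algebraically independent over `ℚ`, for example the explicit
real points with the coordinates `exp (2 ^ (k / (2 r)))`, `k = 0, 1, …, 2 r - 1`. Then for ALL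
multiplicities `m ≥ 1` and ALL degrees `d`:

* no form exceptional for `Y` divides all elements of `[I_Y ^ (m)]_d` if this space is not zero, and
  the equivalence of Q1 holds for `Y`, `m`, `d` if and only if `m Y` is `AH₂(d)`;
* `m Y` is `AH₂(d)`, and the equivalence of Q1 holds, for every `d` if `r ≥ 37`, `r = 13`, `r = 21` or `r`
  is a square, and for every `d` but at most one (in the window `Open r m`) for the other `r ≥ 10`.

The field of complex numbers has an automorphism moving `Y` to any other such set of points, and it is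
enough to find one of them in the open set given by the theorem for general points.
-/

namespace Pool.Agent.Results.MP_8707bd_ag.AlgebraicallyIndependentPoints

open MvPolynomial

/-- the forms of degree `d` in the ideal `J` -/
noncomputable def part (J : Ideal (MvPolynomial (Fin 3) ℂ)) (d : ℕ) :
    Submodule ℂ (MvPolynomial (Fin 3) ℂ) :=
  homogeneousSubmodule (Fin 3) ℂ d ⊓ Submodule.restrictScalars ℂ J

/-- The homogeneous ideal of the point `(p 0 : p 1 : 1)`. -/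
noncomputable def pointIdeal (p : Fin 2 → ℂ) : Ideal (MvPolynomial (Fin 3) ℂ) :=
  Ideal.span ({X 0 - C (p 0) * X 2, X 1 - C (p 1) * X 2} : Set (MvPolynomial (Fin 3) ℂ))

/-- The ideal `I_Y ^ (m)` of the points `(Y i 0 : Y i 1 : 1)` with multiplicity `m`. -/
noncomputable def fat {r : ℕ} (Y : Fin r → Fin 2 → ℂ) (m : ℕ) : Ideal (MvPolynomial (Fin 3) ℂ) :=
  ⨅ i : Fin r, pointIdeal (Y i) ^ m

/-- The Hilbert function `H_{R/J}(d) = dim R_d - dim [J]_d`. -/
noncomputable def hilb (J : Ideal (MvPolynomial (Fin 3) ℂ)) (d : ℕ) : ℕ :=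
  Module.finrank ℂ ↥(homogeneousSubmodule (Fin 3) ℂ d) - Module.finrank ℂ ↥(part J d)

/-- `m Y` is `AH₂(d)`. -/
def IsAH {r : ℕ} (Y : Fin r → Fin 2 → ℂ) (m d : ℕ) : Prop :=
  hilb (fat Y m) d = min ((d + 2).choose 2) (r * (m + 1).choose 2)

/-- The form `F` is exceptional for `Y`: irreducible, of degree `e`, with multiplicity exactly `c i`
at `Y i`, `e ^ 2 - ∑ c i ^ 2 = -1` and `- 3 e + ∑ c i = -1`. -/
def IsExceptional {r : ℕ} (Y : Fin r → Fin 2 → ℂ) (F : MvPolynomial (Fin 3) ℂ) : Prop :=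
  Irreducible F ∧ ∃ (e : ℕ) (c : Fin r → ℕ), F.IsHomogeneous e ∧
    (∀ i, F ∈ pointIdeal (Y i) ^ c i ∧ F ∉ pointIdeal (Y i) ^ (c i + 1)) ∧
    (e : ℤ) ^ 2 - ∑ i, (c i : ℤ) ^ 2 = -1 ∧ -3 * (e : ℤ) + ∑ i, (c i : ℤ) = -1

/-- The equivalence of Q1 for the points `Y`, the multiplicity `m` and the degree `d`: if
`[I_Y ^ (m)]_d ≠ 0`, then `m Y` fails to be `AH₂(d)` if and only if some `F` exceptional for `Y` has a
power `F ^ s`, `s ≥ 2`, dividing all elements of `[I_Y ^ (m)]_d`. -/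
def Equivalence {r : ℕ} (Y : Fin r → Fin 2 → ℂ) (m d : ℕ) : Prop :=
  part (fat Y m) d ≠ ⊥ →
    (¬ IsAH Y m d ↔ ∃ F, IsExceptional Y F ∧ ∃ s : ℕ, 2 ≤ s ∧ ∀ G ∈ part (fat Y m) d, F ^ s ∣ G)

/-- The window of the degree which may be left open: none if `r ≥ 37`, `r = 13`, `r = 21`, `r` is a
square or `m ≤ r - 6 √r + 11`. -/
def Open (r m d : ℕ) : Prop :=
  ¬ (37 ≤ r ∨ r = 13 ∨ r = 21 ∨ IsSquare r) ∧ (r : ℝ) - 6 * √(r : ℝ) + 11 < m ∧
  √(r : ℝ) * (2 * m + 1) - min (√(r : ℝ) - 3) (2 / 3 + 9 / (4 * √(r : ℝ))) ≤ 2 * (d : ℝ) + 3 ∧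
  2 * (d : ℝ) + 3 ≤ √(r : ℝ) * (2 * m + 1) + min (√(r : ℝ) - 3) (2 / 3 + 1 / (4 * √(r : ℝ))) ∧
  (r = 11 ∨ r = 15 → 3 ∣ d ∧ 3 * (√(r : ℝ) - 3) / (√(r : ℝ) + 3) ≤ (d : ℝ) - √(r : ℝ) * m ∧
    2 * (d : ℝ) + 3 < √(r : ℝ) * (2 * m + 1))

/-- The `r` points with the affine coordinates `exp (2 ^ (k / (2 r)))`, `k = 0, 1, …, 2 r - 1`. -/
noncomputable def expPoints (r : ℕ) : Fin r → Fin 2 → ℂ := fun i j =>
  Complex.exp (((2 : ℝ) ^ (((2 * (i : ℕ) + (j : ℕ) : ℕ) : ℝ) / (2 * r)) : ℝ) : ℂ)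

/-- **Main result.** -/
theorem result :
    (∀ (r : ℕ) (Y : Fin r → Fin 2 → ℂ), 10 ≤ r →
      AlgebraicIndependent ℚ (fun ij : Fin r × Fin 2 => Y ij.1 ij.2) → ∀ m d : ℕ, 1 ≤ m →
        (¬ Open r m d → IsAH Y m d ∧ Equivalence Y m d) ∧
        (Equivalence Y m d ↔ IsAH Y m d) ∧
        (part (fat Y m) d ≠ ⊥ → ∀ F, IsExceptional Y F → ∃ G ∈ part (fat Y m) d, ¬ F ∣ G)) ∧
    (∀ r m : ℕ, {d | Open r m d}.Subsingleton) ∧
    ∀ r : ℕ, 1 ≤ r → AlgebraicIndependent ℚ (fun ij : Fin r × Fin 2 => expPoints r ij.1 ij.2) := by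
  refine ⟨fun r Y hr hY m d hm => ?_, fun r m d hd d' hd' =>
    Pool.Agent.L7h88.VG.winP_unique hd hd', fun r hr => Pool.Agent.L7h88.VG.indep_exp hr⟩
  obtain ⟨h1, h2, h3⟩ := Pool.Agent.L7h88.VG.core' hr hY m
  refine ⟨fun h => ?_, h2 d, h3 d⟩
  have h4 : IsAH Y m d := h1 d (Pool.Agent.L7h88.VG.dims hr hm hY h)
  exact ⟨h4, (h2 d).2 h4⟩

end Pool.Agent.Results.MP_8707bd_ag.AlgebraicallyIndependentPoints
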