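import Mathlib
import Pool.Agent.L7h88.VG.Crv2

set_option autoImplicit false

/-!
# The points may be chosen on given curves of large degree, or in given sets

Let `r ≥ 10`, `m ≥ 1` and `B = m (m + 1) √(r m (m + 1))` (integral part of the root). The nonempty open set
of the configurations `Y` of `r` points for which `m Y` is `AH₂(d)` for all `d` (outside the window
`Open r m`, which contains at most one `d`, and none if `r ≥ 37`, `r = 13`, `r = 21`, `r` is a square or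
`m ≤ r - 6 √r + 11`) contains the complement of a hypersurface `Φ = 0` with the following property: if
`S 0, …, S (r - 1)` are any sets of points of the plane none of which is contained in a curve of degree at
most `B`, for example arbitrary irreducible curves of degree more than `B`, or finite sets, then
`Φ(Y) ≠ 0` for some `Y` with `Y i ∈ S i` for all `i` (hence, for irreducible curves, for general points of
the curves). The same holds for the equivalence of Q1, with a bound `B` depending on `r` and `m` which is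
not explicit.
-/

namespace Pool.Agent.Results.MP_8707bd_ag.PointsOfGivenCurves

open MvPolynomial

/-- the forms of degree `d` in the ideal `J` -/
noncomputable def part (J : Ideal (MvPolynomial (Fin 3) ℂ)) (d : ℕ) :
    Submodule ℂ (MvPolynomial (Fin 3) ℂ) :=
  homogeneousSubmodule (Fin 3) ℂ d ⊓ Submodule.restrictScalars ℂ J

/-- The homogeneous ideal of the point `(p 0 : p 1 : 1)`. -/
noncomputable def pointIdeal (p : Fin 2 → ℂ) : Ideal (MvPolynomial (Fin 3) ℂ) :=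
  Ideal.span ({X 0 - C (p 0) * X 2, X 1 - C (p 1) * X 2} : Set (MvPolynomial (Fin 3) ℂ))

/-- The ideal `I_Y ^ (m)` of the points `(Y i 0 : Y i 1 : 1)` with multiplicity `m`. -/
noncomputable def fat {r : ℕ} (Y : Fin r → Fin 2 → ℂ) (m : ℕ) : Ideal (MvPolynomial (Fin 3) ℂ) :=
  ⨅ i : Fin r, pointIdeal (Y i) ^ m

/-- The Hilbert function `H_{R/J}(d) = dim R_d - dim [J]_d`. -/
noncomputable def hilb (J : Ideal (MvPolynomial (Fin 3) ℂ)) (d : ℕ) : ℕ :=
  Module.finrank ℂ ↥(homogeneousSubmodule (Fin 3) ℂ d) - Module.finrank ℂ ↥(part J d)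

/-- `m Y` is `AH₂(d)`. -/
def IsAH {r : ℕ} (Y : Fin r → Fin 2 → ℂ) (m d : ℕ) : Prop :=
  hilb (fat Y m) d = min ((d + 2).choose 2) (r * (m + 1).choose 2)

/-- The form `F` is exceptional for `Y`: irreducible, of degree `e`, with multiplicity exactly `c i`
at `Y i`, `e ^ 2 - ∑ c i ^ 2 = -1` and `- 3 e + ∑ c i = -1`. -/
def IsExceptional {r : ℕ} (Y : Fin r → Fin 2 → ℂ) (F : MvPolynomial (Fin 3) ℂ) : Prop :=
  Irreducible F ∧ ∃ (e : ℕ) (c : Fin r → ℕ), F.IsHomogeneous e ∧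
    (∀ i, F ∈ pointIdeal (Y i) ^ c i ∧ F ∉ pointIdeal (Y i) ^ (c i + 1)) ∧
    (e : ℤ) ^ 2 - ∑ i, (c i : ℤ) ^ 2 = -1 ∧ -3 * (e : ℤ) + ∑ i, (c i : ℤ) = -1

/-- The equivalence of Q1 for the points `Y`, the multiplicity `m` and the degree `d`: if
`[I_Y ^ (m)]_d ≠ 0`, then `m Y` fails to be `AH₂(d)` if and only if some `F` exceptional for `Y` has a
power `F ^ s`, `s ≥ 2`, dividing all elements of `[I_Y ^ (m)]_d`. -/
def Equivalence {r : ℕ} (Y : Fin r → Fin 2 → ℂ) (m d : ℕ) : Prop :=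
  part (fat Y m) d ≠ ⊥ →
    (¬ IsAH Y m d ↔ ∃ F, IsExceptional Y F ∧ ∃ s : ℕ, 2 ≤ s ∧ ∀ G ∈ part (fat Y m) d, F ^ s ∣ G)

/-- The window of the degree which may be left open: none if `r ≥ 37`, `r = 13`, `r = 21`, `r` is a
square or `m ≤ r - 6 √r + 11`. -/
def Open (r m d : ℕ) : Prop :=
  ¬ (37 ≤ r ∨ r = 13 ∨ r = 21 ∨ IsSquare r) ∧ (r : ℝ) - 6 * √(r : ℝ) + 11 < m ∧
  √(r : ℝ) * (2 * m + 1) - min (√(r : ℝ) - 3) (2 / 3 + 9 / (4 * √(r : ℝ))) ≤ 2 * (d : ℝ) + 3 ∧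
  2 * (d : ℝ) + 3 ≤ √(r : ℝ) * (2 * m + 1) + min (√(r : ℝ) - 3) (2 / 3 + 1 / (4 * √(r : ℝ))) ∧
  (r = 11 ∨ r = 15 → 3 ∣ d ∧ 3 * (√(r : ℝ) - 3) / (√(r : ℝ) + 3) ≤ (d : ℝ) - √(r : ℝ) * m ∧
    2 * (d : ℝ) + 3 < √(r : ℝ) * (2 * m + 1))

/-- No plane curve of degree at most `B` contains the set `S`. -/
def NoCurve (B : ℕ) (S : Set (Fin 2 → ℂ)) : Prop :=
  ∀ φ : MvPolynomial (Fin 2) ℂ, φ ≠ 0 → φ.totalDegree ≤ B → ∃ z ∈ S, eval z φ ≠ 0

/-- The open set `Ψ ≠ 0` of configurations meets every product of sets `S i` not contained in curves of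
degree at most `B`. -/
def Meets {r : ℕ} (B : ℕ) (Ψ : MvPolynomial (Fin r × Fin 2) ℂ) : Prop :=
  ∀ S : Fin r → Set (Fin 2 → ℂ), (∀ i, NoCurve B (S i)) →
    ∃ Y : Fin r → Fin 2 → ℂ, (∀ i, Y i ∈ S i) ∧ eval (fun ij : Fin r × Fin 2 => Y ij.1 ij.2) Ψ ≠ 0

/-- **Main result.** -/
theorem result (r m : ℕ) (hr : 10 ≤ r) (hm : 1 ≤ m) :
    {d | Open r m d}.Subsingleton ∧
    -- the dimension, explicit bound
    (∃ Φ : MvPolynomial (Fin r × Fin 2) ℂ,
      (∀ Y : Fin r → Fin 2 → ℂ, eval (fun ij : Fin r × Fin 2 => Y ij.1 ij.2) Φ ≠ 0 →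
        ∀ d, ¬ Open r m d → IsAH Y m d) ∧
      Meets (m * (m + 1) * Nat.sqrt (r * m * (m + 1))) Φ) ∧
    -- the equivalence of Q1
    (∃ (B : ℕ) (Ψ : MvPolynomial (Fin r × Fin 2) ℂ),
      (∀ Y : Fin r → Fin 2 → ℂ, eval (fun ij : Fin r × Fin 2 => Y ij.1 ij.2) Ψ ≠ 0 → ∀ d,
        (¬ Open r m d → IsAH Y m d ∧ Equivalence Y m d) ∧ (Equivalence Y m d ↔ IsAH Y m d) ∧
        (part (fat Y m) d ≠ ⊥ → ∀ F, IsExceptional Y F → ∃ G ∈ part (fat Y m) d, ¬ F ∣ G)) ∧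
      Meets B Ψ) ∧
    -- irreducible curves of large degree
    ∀ (B : ℕ) (P : MvPolynomial (Fin 2) ℂ), Irreducible P → B < P.totalDegree →
      NoCurve B {z | eval z P = 0} := by
  refine ⟨fun d hd d' hd' => Pool.Agent.L7h88.VG.winP_unique hd hd', ?_, ?_,
    fun B P hP hB => Pool.Agent.L7h88.VG.noCurve_of_irreducible hP hB⟩
  · obtain ⟨Φ, h1, h2, h3⟩ := Pool.Agent.L7h88.VG.dim_poly hr hm
    refine ⟨Φ.map (Int.castRingHom ℂ), fun Y hY => ?_, fun S hS => ?_⟩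
    · rw [eval_map] at hY
      exact h2 Y hY
    · have h4 : Φ.map (Int.castRingHom ℂ) ≠ 0 :=
        Pool.Agent.Y210.EF.map_ne_zero_of_lt h1 le_rfl (Or.inl inferInstance)
      obtain ⟨P, hP⟩ : ∃ P : Fin r → Fin 2 → ℂ, Pool.Agent.Y210.EF.ev P Φ ≠ 0 := by
        by_contra hcon
        push Not at hcon
        apply h4
        apply MvPolynomial.funext
        intro x
        rw [map_zero, eval_map]
        exact hcon fun i j => x (i, j)
      obtain ⟨Y, hY, hY'⟩ := Pool.Agent.L7h88.VG.exists_in (S := S) hS (h3 ℂ) hP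
      refine ⟨Y, hY, ?_⟩
      rw [eval_map]
      exact hY'
  · obtain ⟨Ψ, h1, h2⟩ := Pool.Agent.L7h88.VG.eq_poly hr hm
    exact ⟨Ψ.totalDegree, Ψ, h2, fun S hS => Pool.Agent.L7h88.VG.exists_in' hS h1 le_rfl⟩

end Pool.Agent.Results.MP_8707bd_ag.PointsOfGivenCurves
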