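import Mathlib
import Pool.Agent.L7h52.NQ.Fin4
import Pool.Agent.L7h88.VG.Crv2

set_option autoImplicit false

/-!
# The equivalence of Q1 for 17 to 24 points

Let `17 ≤ r ≤ 24` and let `Y` be a general set of `r` points of the complex projective plane. In the
starting library the scheme `m Y` is `AH₂(d)` and the equivalence of Q1 holds in all degrees outside a
window `Open r m` of at most one degree, which is empty for `r = 21` and for small `m` and contains a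
degree for about 92 to 96 per cent of the other multiplicities `m`. Here the window is replaced by the
smaller one `Gap r m`, which is empty for `r = 20` and `r = 24`: the cases of 20 and of 24 points are
settled for all `m` and `d`. For `r = 18` it is empty for 91 per cent of all `m`, for `r = 17` for 79, for
`r = 19` for 56 per cent.

The proof degenerates the forms of degree `d` along a tube around a rational quartic with a node and two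
cusps, parametrized by `(((1-t)(3-t))^2 : t (1-t)^2 : t (3-t)^2)`. The tube passes through the node. The
library has this for nodal cubics.
-/

namespace Pool.Agent.Results.MP_8707bd_ag.SeventeenToTwentyFour

open MvPolynomial

/-- the forms of degree `d` in the ideal `J` -/
noncomputable def part (J : Ideal (MvPolynomial (Fin 3) ℂ)) (d : ℕ) :
    Submodule ℂ (MvPolynomial (Fin 3) ℂ) :=
  homogeneousSubmodule (Fin 3) ℂ d ⊓ Submodule.restrictScalars ℂ J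

/-- The homogeneous ideal of the point `(p 0 : p 1 : 1)`. -/
noncomputable def pointIdeal (p : Fin 2 → ℂ) : Ideal (MvPolynomial (Fin 3) ℂ) :=
  Ideal.span ({X 0 - C (p 0) * X 2, X 1 - C (p 1) * X 2} : Set (MvPolynomial (Fin 3) ℂ))

/-- The ideal `I_Y ^ (m)` of the points `(Y i 0 : Y i 1 : 1)` with multiplicity `m`. -/
noncomputable def fat {r : ℕ} (Y : Fin r → Fin 2 → ℂ) (m : ℕ) : Ideal (MvPolynomial (Fin 3) ℂ) :=
  ⨅ i : Fin r, pointIdeal (Y i) ^ m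

/-- The Hilbert function `H_{R/J}(d) = dim R_d - dim [J]_d`. -/
noncomputable def hilb (J : Ideal (MvPolynomial (Fin 3) ℂ)) (d : ℕ) : ℕ :=
  Module.finrank ℂ ↥(homogeneousSubmodule (Fin 3) ℂ d) - Module.finrank ℂ ↥(part J d)

/-- `m Y` is `AH₂(d)`. -/
def IsAH {r : ℕ} (Y : Fin r → Fin 2 → ℂ) (m d : ℕ) : Prop :=
  hilb (fat Y m) d = min ((d + 2).choose 2) (r * (m + 1).choose 2)

/-- The form `F` is exceptional for `Y`: irreducible, of degree `e`, with multiplicity exactly `c i`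
at `Y i`, `e ^ 2 - ∑ c i ^ 2 = -1` and `- 3 e + ∑ c i = -1`. -/
def IsExceptional {r : ℕ} (Y : Fin r → Fin 2 → ℂ) (F : MvPolynomial (Fin 3) ℂ) : Prop :=
  Irreducible F ∧ ∃ (e : ℕ) (c : Fin r → ℕ), F.IsHomogeneous e ∧
    (∀ i, F ∈ pointIdeal (Y i) ^ c i ∧ F ∉ pointIdeal (Y i) ^ (c i + 1)) ∧
    (e : ℤ) ^ 2 - ∑ i, (c i : ℤ) ^ 2 = -1 ∧ -3 * (e : ℤ) + ∑ i, (c i : ℤ) = -1

/-- The equivalence of Q1 for the points `Y`, the multiplicity `m` and the degree `d`: if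
`[I_Y ^ (m)]_d ≠ 0`, then `m Y` fails to be `AH₂(d)` if and only if some `F` exceptional for `Y` has a
power `F ^ s`, `s ≥ 2`, dividing all elements of `[I_Y ^ (m)]_d`. -/
def Equivalence {r : ℕ} (Y : Fin r → Fin 2 → ℂ) (m d : ℕ) : Prop :=
  part (fat Y m) d ≠ ⊥ →
    (¬ IsAH Y m d ↔ ∃ F, IsExceptional Y F ∧ ∃ s : ℕ, 2 ≤ s ∧ ∀ G ∈ part (fat Y m) d, F ^ s ∣ G)

/-- The window of the starting library, at most one degree. -/
def Open (r m d : ℕ) : Prop :=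
  ¬ (37 ≤ r ∨ r = 13 ∨ r = 21 ∨ IsSquare r) ∧ (r : ℝ) - 6 * √(r : ℝ) + 11 < m ∧
  √(r : ℝ) * (2 * m + 1) - min (√(r : ℝ) - 3) (2 / 3 + 9 / (4 * √(r : ℝ))) ≤ 2 * (d : ℝ) + 3 ∧
  2 * (d : ℝ) + 3 ≤ √(r : ℝ) * (2 * m + 1) + min (√(r : ℝ) - 3) (2 / 3 + 1 / (4 * √(r : ℝ))) ∧
  (r = 11 ∨ r = 15 → 3 ∣ d ∧ 3 * (√(r : ℝ) - 3) / (√(r : ℝ) + 3) ≤ (d : ℝ) - √(r : ℝ) * m ∧
    2 * (d : ℝ) + 3 < √(r : ℝ) * (2 * m + 1))

/-- The lower end of the new window. -/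
noncomputable def low (r d : ℕ) : ℝ :=
  if d % 4 = 0 then 1 / 2 - 1 / √(r : ℝ) else if d % 4 = 1 then 3 / 7 else 1 / 2

/-- The window of the quartics. -/
def New (r m d : ℕ) : Prop :=
  ((r = 17 ∨ r = 19 ∨ r = 22 ∨ r = 23) ∧ low r d ≤ (d : ℝ) - √(r : ℝ) * m ∧
    (d : ℝ) - √(r : ℝ) * m ≤ √(r : ℝ) - 7 / 2) ∨
  (r = 18 ∧ (4 ∣ d ∧ 4 / 9 * √(r : ℝ) - 3 / 2 ≤ (d : ℝ) - √(r : ℝ) * m ∨
    4 ∣ d + 3 ∧ 1 / 2 ≤ (d : ℝ) - √(r : ℝ) * m) ∧ (d : ℝ) - √(r : ℝ) * m < (√(r : ℝ) - 3) / 2)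

/-- The degrees which may be left open. -/
def Gap (r m d : ℕ) : Prop := Open r m d ∧ New r m d

/-- The proportion of the multiplicities with an open degree is at most `ρ`. -/
noncomputable def rho (r : ℕ) : ℝ :=
  if r = 18 then (5 / 9 * √(r : ℝ) - 2) / 4
    else if r = 20 ∨ r = 21 ∨ r = 24 then 0 else √(r : ℝ) - 223 / 56 + 1 / (4 * √(r : ℝ))

theorem not_gap {r m d : ℕ} (hr : r = 20 ∨ r = 24) : ¬ Gap r m d := by
  rintro ⟨-, ⟨h, -⟩ | ⟨h, -⟩⟩ <;> omega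

/-- **Main result.** -/
theorem result :
    (∀ (r : ℕ) (Y : Fin r → Fin 2 → ℂ), 17 ≤ r → r ≤ 24 →
      AlgebraicIndependent ℚ (fun ij : Fin r × Fin 2 => Y ij.1 ij.2) → ∀ m d : ℕ, 1 ≤ m →
        ¬ Gap r m d → IsAH Y m d ∧ Equivalence Y m d) ∧
    (∀ r m : ℕ, 17 ≤ r → r ≤ 24 → 1 ≤ m → ∃ Φ : MvPolynomial (Fin r × Fin 2) ℂ, Φ ≠ 0 ∧
      ∀ Y : Fin r → Fin 2 → ℂ, eval (fun ij : Fin r × Fin 2 => Y ij.1 ij.2) Φ ≠ 0 →
        ∀ d : ℕ, ¬ Gap r m d → IsAH Y m d ∧ Equivalence Y m d) ∧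
    (∀ m d : ℕ, ¬ Gap 20 m d ∧ ¬ Gap 24 m d) ∧
    (∀ r m : ℕ, {d | Gap r m d}.Subsingleton) ∧
    ∀ (r : ℕ) (ε : ℝ), 17 ≤ r → r ≤ 24 → 0 < ε → ∃ M₀ : ℕ, ∀ M : ℕ, M₀ ≤ M →
      (Set.ncard {m : ℕ | m < M ∧ ∃ d, Gap r m d} : ℝ) ≤ (rho r + ε) * M := by
  refine ⟨fun r Y h17 h24 hY m d hm hG => ?_, fun r m h17 h24 hm => ?_, fun m d =>
      ⟨not_gap (Or.inl rfl), not_gap (Or.inr rfl)⟩,
    fun r m d hd d' hd' => Pool.Agent.L7h88.VG.winP_unique hd.1 hd'.1, fun r ε h17 h24 hε => ?_⟩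
  · obtain ⟨h1, h2, -⟩ := Pool.Agent.L7h88.VG.core' (by omega) hY m
    have h4 : IsAH Y m d := by
      by_cases hO : Open r m d
      · obtain ⟨F, hF, hF'⟩ := Pool.Agent.L7h52.NQ.uni4 h17 h24 hm
        exact h1 d (hF' Y (Pool.Agent.L7h88.VG.ne_of_indep hY hF) d fun hN => hG ⟨hO, hN⟩)
      · exact h1 d (Pool.Agent.L7h88.VG.dims (by omega) hm hY hO)
    exact ⟨h4, (h2 d).2 h4⟩
  · obtain ⟨F, hF, hF'⟩ := Pool.Agent.L7h52.NQ.uni4 h17 h24 hm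
    obtain ⟨Φ, hΦ, hΦ'⟩ := Pool.Agent.TH387.EX.core (r := r) (by omega) (m := m)
      (S := {d : ℕ | ¬ New r m d}) ⟨F, hF, fun P hP d hd => hF' P hP d hd⟩
    obtain ⟨Ψ, hΨ, hΨ'⟩ := Pool.Agent.L7h88.VG.eq_poly (r := r) (m := m) (by omega) hm
    refine ⟨Φ * Ψ, mul_ne_zero hΦ hΨ, fun Y hY d hG => ?_⟩
    rw [map_mul] at hY
    by_cases hO : Open r m d
    · exact (hΦ' Y (left_ne_zero_of_mul hY)).1 d fun hN => hG ⟨hO, hN⟩
    · exact (hΨ' Y (right_ne_zero_of_mul hY) d).1 hO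
  · obtain ⟨M₀, hM₀⟩ := Pool.Agent.L7h52.NQ.cnt_newQ h17 h24 hε
    refine ⟨M₀, fun M hM => le_trans ?_ (hM₀ M hM)⟩
    apply Nat.cast_le.2
    refine Set.ncard_le_ncard ?_ ((Set.finite_lt_nat M).subset fun m hm => hm.1)
    rintro m ⟨hm, d, hd⟩
    exact ⟨hm, d, hd.2⟩

end Pool.Agent.Results.MP_8707bd_ag.SeventeenToTwentyFour
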