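import Mathlib
import Pool.Agent.L7h52.QW.Fin26
import Pool.Agent.L7h88.VG.Crv2

set_option autoImplicit false

/-!
# The equivalence of Q1 for 26 to 35 points

Let `26 ≤ r ≤ 35` and let `Y` be a general set of `r` points of the complex projective plane. In the
starting library the scheme `m Y` is `AH₂(d)` and the equivalence of Q1 holds in all degrees outside a
window `Open r m` of at most one degree, which contains a degree for about 88 to 91 per cent of the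
multiplicities `m`. Here the window is replaced by the smaller one `Gap r m`, which is empty for `r = 29`:
the case of 29 points is settled for all `m` and `d`. For `r = 27` it is empty for 84 per cent of all `m`
(and in all degrees `3, 4` modulo `5`), for `r = 26` for 77, for `r = 35` for 61 per cent.

The proof degenerates the forms of degree `d` along a tube around a rational quintic (the library has this
for nodal cubics, and `SeventeenToTwentyFour` for quartics), and for 29 points by a new nonvanishing lemma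
for the rows of the flattened block which have fewer exponents than conditions.
-/

namespace Pool.Agent.Results.MP_8707bd_ag.TwentySixToThirtyFive

open MvPolynomial

/-- the forms of degree `d` in the ideal `J` -/
noncomputable def part (J : Ideal (MvPolynomial (Fin 3) ℂ)) (d : ℕ) :
    Submodule ℂ (MvPolynomial (Fin 3) ℂ) :=
  homogeneousSubmodule (Fin 3) ℂ d ⊓ Submodule.restrictScalars ℂ J

/-- The homogeneous ideal of the point `(p 0 : p 1 : 1)`. -/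
noncomputable def pointIdeal (p : Fin 2 → ℂ) : Ideal (MvPolynomial (Fin 3) ℂ) :=
  Ideal.span ({X 0 - C (p 0) * X 2, X 1 - C (p 1) * X 2} : Set (MvPolynomial (Fin 3) ℂ))

/-- The ideal `I_Y ^ (m)` of the points `(Y i 0 : Y i 1 : 1)` with multiplicity `m`. -/
noncomputable def fat {r : ℕ} (Y : Fin r → Fin 2 → ℂ) (m : ℕ) : Ideal (MvPolynomial (Fin 3) ℂ) :=
  ⨅ i : Fin r, pointIdeal (Y i) ^ m

/-- The Hilbert function `H_{R/J}(d) = dim R_d - dim [J]_d`. -/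
noncomputable def hilb (J : Ideal (MvPolynomial (Fin 3) ℂ)) (d : ℕ) : ℕ :=
  Module.finrank ℂ ↥(homogeneousSubmodule (Fin 3) ℂ d) - Module.finrank ℂ ↥(part J d)

/-- `m Y` is `AH₂(d)`. -/
def IsAH {r : ℕ} (Y : Fin r → Fin 2 → ℂ) (m d : ℕ) : Prop :=
  hilb (fat Y m) d = min ((d + 2).choose 2) (r * (m + 1).choose 2)

/-- The form `F` is exceptional for `Y`: irreducible, of degree `e`, with multiplicity exactly `c i`
at `Y i`, `e ^ 2 - ∑ c i ^ 2 = -1` and `- 3 e + ∑ c i = -1`. -/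
def IsExceptional {r : ℕ} (Y : Fin r → Fin 2 → ℂ) (F : MvPolynomial (Fin 3) ℂ) : Prop :=
  Irreducible F ∧ ∃ (e : ℕ) (c : Fin r → ℕ), F.IsHomogeneous e ∧
    (∀ i, F ∈ pointIdeal (Y i) ^ c i ∧ F ∉ pointIdeal (Y i) ^ (c i + 1)) ∧
    (e : ℤ) ^ 2 - ∑ i, (c i : ℤ) ^ 2 = -1 ∧ -3 * (e : ℤ) + ∑ i, (c i : ℤ) = -1

/-- The equivalence of Q1 for the points `Y`, the multiplicity `m` and the degree `d`: if
`[I_Y ^ (m)]_d ≠ 0`, then `m Y` fails to be `AH₂(d)` if and only if some `F` exceptional for `Y` has a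
power `F ^ s`, `s ≥ 2`, dividing all elements of `[I_Y ^ (m)]_d`. -/
def Equivalence {r : ℕ} (Y : Fin r → Fin 2 → ℂ) (m d : ℕ) : Prop :=
  part (fat Y m) d ≠ ⊥ →
    (¬ IsAH Y m d ↔ ∃ F, IsExceptional Y F ∧ ∃ s : ℕ, 2 ≤ s ∧ ∀ G ∈ part (fat Y m) d, F ^ s ∣ G)

/-- The window of the starting library, at most one degree. -/
def Open (r m d : ℕ) : Prop :=
  ¬ (37 ≤ r ∨ r = 13 ∨ r = 21 ∨ IsSquare r) ∧ (r : ℝ) - 6 * √(r : ℝ) + 11 < m ∧
  √(r : ℝ) * (2 * m + 1) - min (√(r : ℝ) - 3) (2 / 3 + 9 / (4 * √(r : ℝ))) ≤ 2 * (d : ℝ) + 3 ∧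
  2 * (d : ℝ) + 3 ≤ √(r : ℝ) * (2 * m + 1) + min (√(r : ℝ) - 3) (2 / 3 + 1 / (4 * √(r : ℝ))) ∧
  (r = 11 ∨ r = 15 → 3 ∣ d ∧ 3 * (√(r : ℝ) - 3) / (√(r : ℝ) + 3) ≤ (d : ℝ) - √(r : ℝ) * m ∧
    2 * (d : ℝ) + 3 < √(r : ℝ) * (2 * m + 1))

/-- The lower end of the new window. -/
noncomputable def lo (r d : ℕ) : ℝ :=
  if r = 27 ∧ d % 5 = 0 then (√(r : ℝ) - 3) / 2 - 1 / √(r : ℝ)
  else if d % 5 = 0 then 1 - 1 / √(r : ℝ) else if d % 5 = 1 then 1 - 2 / √(r : ℝ)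
  else if d % 5 = 2 ∧ r ≠ 27 then 18 / 19 else 1

/-- The upper end of the new window; the value `0` means that the window is empty. -/
noncomputable def hi (r d : ℕ) : ℝ :=
  if r = 29 ∨ (r = 27 ∨ r = 35) ∧ 3 ≤ d % 5 then 0
  else if r = 27 ∨ r = 35 ∧ d % 5 ≠ 1 then (√(r : ℝ) - 3) / 2 else √(r : ℝ) - 4

/-- The degrees which may be left open. -/
def Gap (r m d : ℕ) : Prop :=
  Open r m d ∧ lo r d ≤ (d : ℝ) - √(r : ℝ) * m ∧ (d : ℝ) - √(r : ℝ) * m ≤ hi r d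

/-- The proportion of the multiplicities with an open degree is at most `ρ`: the sum of the lengths of the
windows of the five classes of `d` modulo `5`, divided by `5`. -/
noncomputable def rho (r : ℕ) : ℝ :=
  ∑ c ∈ Finset.range 5, max 0 (min (hi r c) ((√(r : ℝ) - 3) / 2 + 1 / 3 + 1 / (8 * √(r : ℝ))) -
    max (lo r c) ((√(r : ℝ) - 3) / 2 - 1 / 3 - 9 / (8 * √(r : ℝ)))) / 5

theorem lo_pos {r : ℕ} (h26 : 26 ≤ r) (d : ℕ) : 0 < lo r d := by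
  have hr : (26 : ℝ) ≤ r := by exact_mod_cast h26
  have hs : 5 ≤ √(r : ℝ) := Real.le_sqrt_of_sq_le (by linarith)
  have h1 : 1 / √(r : ℝ) ≤ 1 / 5 := one_div_le_one_div_of_le (by norm_num) hs
  have h2 : 2 / √(r : ℝ) = 2 * (1 / √(r : ℝ)) := by ring
  unfold lo
  split_ifs <;> linarith

theorem not_gap {r m d : ℕ} (h26 : 26 ≤ r) (h : r = 29 ∨ (r = 27 ∨ r = 35) ∧ 3 ≤ d % 5) :
    ¬ Gap r m d := by
  rintro ⟨-, h1, h2⟩
  have h3 := lo_pos h26 d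
  unfold hi at h2
  rw [if_pos h] at h2
  linarith

theorem nsq {r : ℕ} (h26 : 26 ≤ r) (h35 : r ≤ 35) : ¬ IsSquare r := by
  rintro ⟨k, hk⟩
  have h1 : k ≤ 5 := by
    by_contra hcon
    have : 6 * 6 ≤ k * k := Nat.mul_le_mul (by omega) (by omega)
    omega
  have : k * k ≤ 5 * 5 := Nat.mul_le_mul h1 h1
  omega

theorem lo_mod (r d : ℕ) : lo r (d % 5) = lo r d := by
  unfold lo
  rw [Nat.mod_mod]

theorem hi_mod (r d : ℕ) : hi r (d % 5) = hi r d := by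
  unfold hi
  rw [Nat.mod_mod]

/-- **Main result.** -/
theorem result :
    (∀ (r : ℕ) (Y : Fin r → Fin 2 → ℂ), 26 ≤ r → r ≤ 35 →
      AlgebraicIndependent ℚ (fun ij : Fin r × Fin 2 => Y ij.1 ij.2) → ∀ m d : ℕ, 1 ≤ m →
        ¬ Gap r m d → IsAH Y m d ∧ Equivalence Y m d) ∧
    (∀ r m : ℕ, 26 ≤ r → r ≤ 35 → 1 ≤ m → ∃ Φ : MvPolynomial (Fin r × Fin 2) ℂ, Φ ≠ 0 ∧
      ∀ Y : Fin r → Fin 2 → ℂ, eval (fun ij : Fin r × Fin 2 => Y ij.1 ij.2) Φ ≠ 0 →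
        ∀ d : ℕ, ¬ Gap r m d → IsAH Y m d ∧ Equivalence Y m d) ∧
    (∀ m d : ℕ, ¬ Gap 29 m d) ∧
    (∀ m d : ℕ, 3 ≤ d % 5 → ¬ Gap 27 m d ∧ ¬ Gap 35 m d) ∧
    (∀ r m : ℕ, {d | Gap r m d}.Subsingleton) ∧
    ∀ (r : ℕ) (ε : ℝ), 26 ≤ r → r ≤ 35 → 0 < ε → ∃ M₀ : ℕ, ∀ M : ℕ, M₀ ≤ M →
      (Set.ncard {m : ℕ | m < M ∧ ∃ d, Gap r m d} : ℝ) ≤ (rho r + ε) * M := by
  refine ⟨fun r Y h26 h35 hY m d hm hG => ?_, fun r m h26 h35 hm => ?_,
    fun m d => not_gap (by norm_num) (Or.inl rfl), fun m d hd =>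
      ⟨not_gap (by norm_num) (Or.inr ⟨Or.inl rfl, hd⟩), not_gap (by norm_num) (Or.inr ⟨Or.inr rfl, hd⟩)⟩,
    fun r m d hd d' hd' => Pool.Agent.L7h88.VG.winP_unique hd.1 hd'.1, fun r ε h26 h35 hε => ?_⟩
  · obtain ⟨h1, h2, -⟩ := Pool.Agent.L7h88.VG.core' (by omega) hY m
    have h4 : IsAH Y m d := by
      by_cases hO : Open r m d
      · obtain ⟨F, hF, hF'⟩ := Pool.Agent.L7h52.QW.uni5 h26 hm
        exact h1 d (hF' Y (Pool.Agent.L7h88.VG.ne_of_indep hY hF) d fun hN => hG ⟨hO, hN⟩)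
      · exact h1 d (Pool.Agent.L7h88.VG.dims (by omega) hm hY hO)
    exact ⟨h4, (h2 d).2 h4⟩
  · obtain ⟨F, hF, hF'⟩ := Pool.Agent.L7h52.QW.uni5 h26 hm
    obtain ⟨Φ, hΦ, hΦ'⟩ := Pool.Agent.TH387.EX.core (r := r) (by omega) (m := m)
      (S := {d : ℕ | ¬ Pool.Agent.L7h52.QW.NewF r m d}) ⟨F, hF, fun P hP d hd => hF' P hP d hd⟩
    obtain ⟨Ψ, hΨ, hΨ'⟩ := Pool.Agent.L7h88.VG.eq_poly (r := r) (m := m) (by omega) hm
    refine ⟨Φ * Ψ, mul_ne_zero hΦ hΨ, fun Y hY d hG => ?_⟩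
    rw [map_mul] at hY
    by_cases hO : Open r m d
    · exact (hΦ' Y (left_ne_zero_of_mul hY)).1 d fun hN => hG ⟨hO, hN⟩
    · exact (hΨ' Y (right_ne_zero_of_mul hY) d).1 hO
  · refine Pool.Agent.L7h52.QW.cnt5 (nsq h26 h35) (Q := Gap r) ?_ hε
    rintro m d ⟨⟨-, -, h1, h2, -⟩, h3, h4⟩
    have h5 : min (√(r : ℝ) - 3) (2 / 3 + 9 / (4 * √(r : ℝ))) ≤ 2 / 3 + 9 / (4 * √(r : ℝ)) :=
      min_le_right _ _
    have h6 : min (√(r : ℝ) - 3) (2 / 3 + 1 / (4 * √(r : ℝ))) ≤ 2 / 3 + 1 / (4 * √(r : ℝ)) :=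
      min_le_right _ _
    have hr : (26 : ℝ) ≤ r := by exact_mod_cast h26
    have hs : 0 < √(r : ℝ) := Real.sqrt_pos.2 (by linarith)
    have h7 : 9 / (4 * √(r : ℝ)) = 2 * (9 / (8 * √(r : ℝ))) := by field_simp; norm_num
    have h8 : 1 / (4 * √(r : ℝ)) = 2 * (1 / (8 * √(r : ℝ))) := by field_simp; norm_num
    rw [lo_mod, hi_mod]
    refine ⟨max_le h3 ?_, le_min h4 ?_⟩
    · linarith
    · linarith

end Pool.Agent.Results.MP_8707bd_ag.TwentySixToThirtyFive
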